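import Pool.Agent.Helper41.Cluster4.Goals

/-!
Packet P of MP_c45da2_co: pairs of near points have the same centre.
-/

namespace Pool.Agent.Helper86.Cluster4

open Module Pool.Agent.Helper65.Delone Pool.Agent.Helper41.Cluster4
open scoped RealInnerProductSpace

variable {E : Type*} [NormedAddCommGroup E] [InnerProductSpace ℝ E]

/-- a pair of near points with a common partner -/
def Pair (X : Set E) (L W : ℝ) (Q : E → Submodule ℝ E) (x z : E) : Prop :=
  x ∈ X ∧ z ∈ X ∧ ‖z - x‖ ≤ L - W ∧ ∃ y ∈ X, ‖y - x‖ = W ∧ y - x ∉ Q x ∧ ‖z - y‖ ≤ L - W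

/-- step (A) -/
theorem stepA {X : Set E} {L W : ℝ} {Q : E → Submodule ℝ E} {c : E → E}
    (hF : Fr X L W Q) (hL : 15 / 2 * W ≤ L) (hC : Cen X L W Q c) {x z : E} (hx : x ∈ X)
    (hz : z ∈ X) (hzx : ‖z - x‖ ≤ L - W) {A : E ≃ₗᵢ[ℝ] E} (hA : A ∈ Sm X L x) :
    Pair X L W Q z (x + A (z - x)) ∧
      c (x + A (z - x)) - c z = A (c z - c x) - (c z - c x) := by
  have hW := hF.W_pos
  have hA' := hA
  obtain ⟨hiso, -, hsmall⟩ := hA
  have hmem : x + A (z - x) ∈ X := by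
    have h1 := (hiso (z - x) (by linarith)).1
    apply h1
    rw [add_sub_cancel]
    exact hz
  have hn : ‖x + A (z - x) - z‖ ≤ 2 / 15 * (L - W) := by
    have e : x + A (z - x) - z = A (z - x) - (z - x) := by abel
    rw [e]
    exact (hsmall (z - x)).trans (by linarith)
  obtain ⟨y', hy', hy'W, hy'Q⟩ := hF.partner z hz
  refine ⟨⟨hz, hmem, by linarith, y', hy', hy'W, hy'Q, ?_⟩, ?_⟩
  · have e : x + A (z - x) - y' = (x + A (z - x) - z) - (y' - z) := by abel
    rw [e]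
    refine (norm_sub_le _ _).trans ?_
    rw [hy'W]
    linarith
  · rw [hC.transport x hx x hx A hiso z hz hzx]
    have hfix : A (c x - x) = c x - x := (hF.S_fix x hx A hA' _).2 (hC.mem x hx)
    have e1 : A (c z - x) = A (c z - c x) + A (c x - x) := by
      rw [← map_add]
      congr 1
      abel
    rw [e1, hfix]
    abel

/-- step (B) -/
theorem stepB (hT : Transp4 E) {X : Set E} {L W : ℝ} {Q : E → Submodule ℝ E} {c : E → E}
    (hF : Fr X L W Q) (hL : 15 / 2 * W ≤ L) (hC : Cen X L W Q c) {x z : E}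
    (hp : Pair X L W Q x z) {x₀ : E} (hx₀ : x₀ ∈ X) :
    ∃ z₀, Pair X L W Q x₀ z₀ ∧ ‖c z₀ - c x₀‖ = ‖c z - c x‖ := by
  have hW := hF.W_pos
  obtain ⟨hx, hz, hzx, y, hy, hyW, hyQ, hzy⟩ := hp
  obtain ⟨B, hB⟩ := hF.cong x hx x₀ hx₀
  have hmem : ∀ v ∈ X, ‖v - x‖ ≤ L → x₀ + B (v - x) ∈ X := by
    intro v hv hvn
    apply (hB (v - x) hvn).1
    rw [add_sub_cancel]
    exact hv
  refine ⟨x₀ + B (z - x), ⟨hx₀, hmem z hz (by linarith), ?_, x₀ + B (y - x),
    hmem y hy (by linarith [hF.W_le]), ?_, ?_, ?_⟩, ?_⟩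
  · rw [add_sub_cancel_left, B.norm_map]
    exact hzx
  · rw [add_sub_cancel_left, B.norm_map]
    exact hyW
  · rw [add_sub_cancel_left]
    intro hmemQ
    have h1 := (hT X L W Q hF x hx x₀ hx₀ B hB x hx (by rw [sub_self, norm_zero]; linarith)).2
      (y - x)
    rw [sub_self, map_zero, add_zero] at h1
    exact hyQ (h1.2 hmemQ)
  · have e : x₀ + B (z - x) - (x₀ + B (y - x)) = B (z - y) := by
      rw [add_sub_add_left_eq_sub, ← map_sub]
      congr 1
      abel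
    rw [e, B.norm_map]
    exact hzy
  · have e1 := hC.transport x hx x₀ hx₀ B hB z hz hzx
    have e2 := hC.transport x hx x₀ hx₀ B hB x hx (by rw [sub_self, norm_zero]; linarith)
    rw [sub_self, map_zero, add_zero] at e2
    rw [e1, e2, add_sub_add_left_eq_sub, ← map_sub, B.norm_map]
    congr 1
    abel

theorem pairClaim (hf : FiniteNear E) (hT : Transp4 E) : PairClaim E := by
  intro _ X D R W Q c hD hX hF hL hC
  set L := 2 * R with hLdef
  have hW := hF.W_pos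
  -- Claim 1
  have claim1 : ∀ x z, Pair X L W Q x z → c z = c x := by
    intro x₀ z₁ hp₁
    by_contra hne
    have hx₀ : x₀ ∈ X := hp₁.1
    set T : Set E := {z | Pair X L W Q x₀ z ∧ c z ≠ c x₀} with hTdef
    have hTfin : T.Finite := by
      refine (hf X D hD hX.sep x₀ (L - W)).subset ?_
      rintro z ⟨⟨-, hz, hzx, -⟩, -⟩
      exact ⟨hz, by rw [norm_sub_rev]; exact hzx⟩
    have hTne : T.Nonempty := ⟨z₁, hp₁, hne⟩
    obtain ⟨z, ⟨hp, hzne⟩, hmin⟩ := Set.exists_min_image T (fun z => ‖c z - c x₀‖) hTfin hTne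
    have hdpos : 0 < ‖c z - c x₀‖ := norm_pos_iff.2 (sub_ne_zero.2 hzne)
    have hall : ∀ x' z', Pair X L W Q x' z' → ‖c z' - c x'‖ < ‖c z - c x₀‖ → c z' = c x' := by
      intro x' z' hp' hlt
      by_contra hne'
      obtain ⟨z₀, hpz, hnz⟩ := stepB hT hF hL hC hp' hx₀
      have hz₀ : z₀ ∈ T := by
        refine ⟨hpz, fun he => hne' ?_⟩
        rw [he, sub_self, norm_zero] at hnz
        exact sub_eq_zero.1 (norm_eq_zero.1 hnz.symm)
      have := hmin z₀ hz₀
      rw [hnz] at this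
      linarith
    obtain ⟨-, hz, hzx, y, hy, hyW, hyQ, hzy⟩ := hp
    -- first membership
    have key : ∀ x' ∈ X, ‖z - x'‖ ≤ L - W → c x' = c x₀ → c z - c x₀ ∈ Q x' := by
      intro x' hx' hzx' hcx
      obtain ⟨A, hA⟩ := hF.S_ne x' hx'
      obtain ⟨hpA, hcA⟩ := stepA hF hL hC hx' hz hzx' hA
      have hle : ‖c (x' + A (z - x')) - c z‖ < ‖c z - c x₀‖ := by
        rw [hcA, hcx]
        refine (hA.2.2 _).trans_lt ?_
        linarith
      have heq := hall _ _ hpA hle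
      rw [heq, sub_self, hcx] at hcA
      exact (hF.S_fix x' hx' A hA _).1 (sub_eq_zero.1 hcA.symm)
    have h1 := key x₀ hx₀ hzx rfl
    obtain ⟨hcy, hQy⟩ := hC.partner x₀ hx₀ y hy hyW hyQ
    have h2 := key y hy hzy hcy
    rw [hQy] at h2
    have h3 : ⟪c z - c x₀, c z - c x₀⟫ = 0 := Submodule.inner_right_of_mem_orthogonal h1 h2
    rw [inner_self_eq_zero] at h3
    exact hzne (sub_eq_zero.1 h3)
  refine ⟨?_, ?_⟩
  · intro x hx y hy z hz hyW hyQ hzx hzy
    exact claim1 x z ⟨hx, hz, hzx, y, hy, hyW, hyQ, hzy⟩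
  · intro x hx z hz hzx
    obtain ⟨A, hA⟩ := hF.S_ne x hx
    obtain ⟨hpA, hcA⟩ := stepA hF hL hC hx hz hzx hA
    have heq := claim1 _ _ hpA
    rw [heq, sub_self] at hcA
    exact (hF.S_fix x hx A hA _).1 (sub_eq_zero.1 hcA.symm)

end Pool.Agent.Helper86.Cluster4
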